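import Mathlib
import Pool.Agent.Helper910.TriDefs
import Pool.Agent.Helper910.Tri1
import Pool.Agent.Helper910.Tri2
import Pool.Agent.Helper910.Tri3

/-!
# Two-sided bounds for k-fold hyperplane covers of triangular grids in every dimension (MP_aedd95_co)
-/

namespace Pool.Agent.Results.MP_aedd95_co.TwoSided

open Pool.Agent.Helper910.Tri

theorem isCover_mono {d n n' k : ℕ} (h : n ≤ n') {M : Multiset (Set (Fin d → ℝ))} (hM : IsCover d n' k M) :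
    IsCover d n k M := ⟨hM.1, fun x hx => hM.2 x (lt_of_lt_of_le hx h)⟩

/-- For all `d, k, n ≥ 1` one has `k ℓ_d n ≤ f(n,d,k) ≤ (2k/(d+1) + 2) n + 3k + 2d`, where `ℓ_1 = 1`,
`ℓ_{d+1} = 1 - exp(-ℓ_d)` and `ℓ_d ≥ 2/(d + H_d)`; hence `k ℓ_d ≤ C_{d,k} ≤ 2k/(d+1) + 2`. -/
theorem result (d k : ℕ) (hd : 1 ≤ d) (_hk : 1 ≤ k) :
    2 / ((d : ℝ) + (harmonic d : ℝ)) ≤ ell d ∧
    (∀ n : ℕ, 1 ≤ n → (k : ℝ) * ell d * n ≤ f n d k ∧
      (f n d k : ℝ) ≤ (2 * k / ((d : ℝ) + 1) + 2) * n + (3 * k + 2 * d)) ∧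
    ∀ C : ℝ, IsSlope d k C → (k : ℝ) * ell d ≤ C ∧ C ≤ 2 * k / ((d : ℝ) + 1) + 2 := by
  refine ⟨ell_ge d hd, fun n hn => ?_, fun C hC => slope_bounds hd k C hC⟩
  obtain ⟨t, ht, h1, h2⟩ : ∃ t : ℕ, 1 ≤ t ∧ n ≤ (d + 1) * t ∧ (d + 1) * t ≤ n + d := by
    refine ⟨(n + d) / (d + 1), ?_, ?_, ?_⟩
    · rw [Nat.le_div_iff_mul_le (by omega)]; omega
    · have := Nat.div_add_mod (n + d) (d + 1)
      have h3 := Nat.mod_lt (n + d) (by omega : 0 < d + 1)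
      omega
    · have := Nat.div_add_mod (n + d) (d + 1)
      omega
  have hc := isCover_coverM hd k t ht
  have hne : {m | ∃ M : Multiset (Set (Fin d → ℝ)), IsCover d n k M ∧ Multiset.card M = m}.Nonempty :=
    ⟨_, _, isCover_mono h1 hc, rfl⟩
  constructor
  · obtain ⟨M, hM, hMc⟩ := Nat.sInf_mem hne
    unfold f
    rw [← hMc]
    exact cover_lower hd hM
  · have h3 : f n d k ≤ Multiset.card (coverM d k t) := Nat.sInf_le ⟨_, isCover_mono h1 hc, rfl⟩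
    have h4 : (f n d k : ℝ) ≤ Multiset.card (coverM d k t) := by exact_mod_cast h3
    refine h4.trans ((card_coverM d k t ht).trans ?_)
    have hN : (0 : ℝ) < (d : ℝ) + 1 := by positivity
    have h5 : ((d : ℝ) + 1) * t ≤ n + d := by exact_mod_cast h2
    have h6 : 2 * (k : ℝ) * t = 2 * k / ((d : ℝ) + 1) * (((d : ℝ) + 1) * t) := by field_simp
    have h7 : 2 * k / ((d : ℝ) + 1) * (((d : ℝ) + 1) * t) ≤ 2 * k / ((d : ℝ) + 1) * (n + d) :=
      mul_le_mul_of_nonneg_left h5 (by positivity)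
    have h8 : 2 * (k : ℝ) / ((d : ℝ) + 1) * d ≤ 2 * k := by
      rw [div_mul_eq_mul_div, div_le_iff₀ hN]
      have : (0 : ℝ) ≤ k := Nat.cast_nonneg k
      nlinarith
    rw [h6]
    nlinarith

end Pool.Agent.Results.MP_aedd95_co.TwoSided
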